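import Pool.Agent.X292.MS.Main

/-!
# The motivic Sato-Tate conjecture for sums of motives of odd weight with a place of bad reduction

Let `G` be the group of the points of the motivic Galois group of a motive `⨁ M_a ⊕ N` over a finitely
generated field (motives of André, or for absolute Hodge cycles) with values in an algebraic closure
`K` of `ℚ_ℓ`; the Galois group `Γ` maps to `G` by `ι`, and `q` is the character of the Lefschetz
motive. The motives `M_a` (with realizations `T a`, and polarizations `B a`) have ODD weights `w a`,
and they are irreducible under all subgroups of finite index of `Γ` (over `K`). For every `a` let
`γ a` be an element of `Γ` (in the applications: in the inertia group of a place of bad reduction)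
which acts unipotently on `T a`, so that (`BadElement`)

* `(γ - 1) ^ 2 = 0`, and the defects of `γ` (the rank of `γ - 1`, and the multiplicities of the nonzero
  eigenvalues of `(γ - 1) (γ' - 1)`, where `γ'` is in `Γ` and `(γ' - 1) ^ 2 = 0`) have no common prime
  factor, or two is a defect (for example, `γ` is a transvection: the variety has one ordinary
  double point), or
* there is a Jordan block of size one, all other blocks have even size, and some even number is the
  size of exactly one block, or
* there is only one Jordan block (maximal degeneration), and the dimension is two, or the eigenvalues
  of some element of `Γ` (a Frobenius element) are not a geometric progression.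

Different `T a` are not isomorphic up to a function on `Γ`. The tannakian category of `N` is
generated by motives `U c` (and the Tate motives) which are small compared with all `T a` (`IsSmall`):
the dimension is smaller than `dim T a`, and there is a symmetric or alternating form up to a
character; or some power `(γ a - 1) ^ d` is zero on `U c` and not on `T a` (for example, if `N` has good
reduction at the place); or `(γ a - 1) ^ 2 = 0` on both, and the rank on `U c` is small.

**Theorem.**

* All Tate classes in `Hom (M_{s 0} ⊗ ⋯ ⊗ M_{s (n - 1)}, E)`, for motives `E` in the category of `N`,
  are combinations of products of the polarizations and vectors of `E`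
  (`GeneratedByPolarizations`): the algebraic monodromy group of `⨁ M_a` is as large as the
  polarizations allow, also relative to `N`.
* All Tate classes in these motives and their Tate twists are motivated if and only if this is true for
  the motives `E`: the motivic Mumford-Tate conjecture holds for `⨁ M_a ⊕ N` if and only if it
  holds for `N`.
* If the Galois group maps onto all finite quotients of the motivic Galois group (which is always
  true, since a motive with a finite motivic Galois group is an Artin motive), then this is true
  without an extension of the base field (`HomSameTateClasses`): the motivic Tate conjecture, and
  so the motivic Sato-Tate conjecture, hold for `⨁ M_a ⊕ N` if the motivic Mumford-Tate conjecture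
  holds for `N`.
* In particular (`N = 0`), if `q` has infinite order on `Γ`, the motivic Mumford-Tate conjecture, and
  the motivic Tate and Sato-Tate conjectures, hold for `⨁ M_a`.

Proof. The operators on the family of the `T a`, the `U c` and lines which are derivations of all
equivariant multilinear maps are a Lie algebra; it contains the logarithms of the elements of `Γ`.
On one `T a` it is the whole symplectic Lie algebra, and by Goursat's lemma for Lie algebras
every element of this symplectic algebra comes from an element which is zero on all other `T b` and
on the `U c`. Now the first fundamental theorem of invariant theory for the symplectic group shows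
that the Tate classes are combinations of products of the polarizations, multiplied by vectors. The
motivic Galois group acts on such products through a power of `q`, so that the values of a Tate class
in `Hom (⨂ M_{s l}, E)` are Tate classes in `E`.
-/

set_option autoImplicit false

namespace Pool.Agent.Results.MP_d61fbb_ag.BadPlaces

open Pool.Agent.Y130.MM Pool.Agent.Y134.MR Pool.Agent.X292.MS

/-- **The motivic Sato-Tate conjecture for sums of motives of odd weight with bad places.** -/
theorem result {K : Type} [Field K] [CharZero K] [IsAlgClosed K]
    -- the Galois group, the motivic Galois group, and the character of the Lefschetz motive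
    {Γ G : Type} [Group Γ] [Group G] (ι : Γ →* G) (q : G →* Kˣ)
    -- the motives `M_a`, and the motives `U_c` which generate the category of `N`
    {A : Type} [Finite A] [DecidableEq A] (w : A → ℕ) {T : A → Type} [∀ a, AddCommGroup (T a)]
    [∀ a, Module K (T a)] [∀ a, FiniteDimensional K (T a)] (τ : ∀ a, Representation K G (T a))
    (B : ∀ a, T a →ₗ[K] T a →ₗ[K] K) (γ : A → Γ) {m : ℕ} {U : Fin m → Type}
    [∀ c, AddCommGroup (U c)] [∀ c, Module K (U c)] [∀ c, FiniteDimensional K (U c)]
    (υ : ∀ c, Representation K G (U c)) (h : BadFamily ι q w τ B γ υ)
    -- the representations in the tannakian category of `N`
    {C : Type} {E : C → Type} [∀ c, AddCommGroup (E c)] [∀ c, Module K (E c)]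
    [∀ c, FiniteDimensional K (E c)] (σ : ∀ c, Representation K G (E c))
    (hE : ∀ c, BuiltFrom q υ (σ c)) :
    (∀ c, GeneratedByPolarizations ι q τ B (σ c)) ∧
    ((∀ c, HomMotivated ι q τ (σ c)) ↔ ∀ c, TateMotivated ι q (σ c)) ∧
    (OntoQuotients ι → (∀ c, TateMotivated ι q (σ c)) → ∀ c, HomSameTateClasses ι q τ (σ c)) ∧
    (InfiniteOrder ι q → HomMotivated ι q τ (Representation.trivial K G K) ∧
      (OntoQuotients ι → HomSameTateClasses ι q τ (Representation.trivial K G K))) :=
  final h σ hE

end Pool.Agent.Results.MP_d61fbb_ag.BadPlaces
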