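import Pool.Agent.X227.UP.Sys2

/-!
# The motivic Sato-Tate conjecture: one finite set of factors for a whole category of motives

Let `k` be a finitely generated field of characteristic zero, `𝒱` a class of smooth projective
varieties over `k` closed under products, and `W` the étale cohomology of these varieties over an
algebraic closure of `k`, with coefficients in an algebraic closure of `ℚ_ℓ`, with the action of the
Galois group `Γ` of `k` (`GaloisData`; `G.χ` is the action on the Tate twists). The cycles are cycles
on the varieties over `k`, so `Γ` acts on the class of a cycle of codimension `j` by `χ ^ j`
(`CyclesFixed`). The closed points of the varieties may have degree greater than one over `k`;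
the cycle class map is normalized such that the class of a closed point has degree one (the usual class
divided by the degree of the point), and this does not change the spaces of algebraic classes with
rational coefficients.

A system of classes (`IsSys`) is any system `C` of `W.K`-subspaces of the cohomology of the varieties
which contains the classes of cycles and is closed under products, pull-backs and push-forwards.
Examples are the spans of the motivated classes (André) over `k`, of the classes over `k` which are
absolute Hodge, and of the algebraic classes. So both categories of motives over `k` of the problem
are included.

For a motive `M` over `k`, pure of some weight, the tensor constructions on `M` have realisations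
`V ⊆ H^m(Y)`, `Y` a variety over `k` (up to Tate twists). The group `G_{1,ℓ,k}(M)` is the kernel of the
multiplier `χ` on the ℓ-adic monodromy group `G_{ℓ,k}(M)`; its invariants in `V` are the sums of the
elements on which the WHOLE group `Γ` acts by a power of the multiplier, and by the weights the power
is determined by the degree. So, if the Galois representations are semisimple, the motivic
Sato-Tate conjecture `G_{1,ℓ,k}(M) = 𝒢_{1,k}(M)` says that for all these `V` the classes `c ∈ V` of degree
`2 j` with `g c = χ(g) ^ j c` for all `g ∈ Γ` are in the system `C` of classes which defines the category of
motives. If `M` is a motive in the cohomology of `Z` and `P` is a variety, then the classes in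
`H(P) ⊗ V` are the classes on `h(P) ⊗ M`. `InvariantsIn G C X V L` says that all classes of degree `2 j` in
`H(P) ⊗ V` on which the whole group acts by `χ ^ j` are in `C`, for the product `P` of the `X i`, `i ∈ L`.

Let `X i` be any family of varieties over `k`, which may be infinite: `X i` is odd-dimensional,
homological and numerical equivalence coincide on `X i`, the transcendental cohomology `T i` (the
orthogonal complement of all algebraic classes) is in the middle degree (`OddMiddle`), the group `Γ`
acts irreducibly on the Lie algebra `sp(T i)` of the operators on `T i` which are skew for the
intersection form, some element of `Γ` has two eigenvalues on `T i` whose quotient is not a root of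
unity, and these adjoint representations are pairwise not isomorphic (`BigFamily`; examples: general
curves and complete intersections of odd dimension). Let `Z` be ANY variety over `k`.

The theorem: there is ONE finite set `B` of indices such that for ALL systems `C`, ALL `n` and `m` and ALL
subspaces `V ⊆ H^m(Z^(n+1))` and all products `P` of powers of the `X i` the statement `InvariantsIn` for
`H(P) ⊗ V` is equivalent to the statement for `H(P') ⊗ V` for the subproducts `P'` of `P` with `i ∈ B` such
that for some degree `m'` of the right parity the product of the numbers (exponent of `X i`) + 1 and the
sum of the `dim T i`, over the `i` which occur, are at most the Betti number `b_{m'}(Z^(n+1))`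
(`SmallDim`). So for the tannakian category generated by `h(Z)` and all the infinitely many `h(X i)`, for
both kinds of motives, the motivic Sato-Tate conjecture for the classes is a question about `Z` and
the `X i` with `i ∈ B`.

The set `B` is bounded: `∑_{i ∈ B} dim sp(T i) ≤ b ^ 2` where `b` is the dimension of any sum of
cohomology groups `H^m(Z)`, `m ∈ S`, which generates the cohomology algebra of `Z` (`GenBound`); in
particular `b = dim H(Z)` is possible for all `Z`, and `b = 2 dim A` if `Z = A` is an abelian variety. No
`i ∈ B` is separated from `Z` by the eigenvalues of an element of `Γ` (`GalSep`); so if all `X i` are
separated from `Z`, the statements for `H(P) ⊗ V` and for `V` are equivalent.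

The idea of the proof: if the factor `X i` matters for some power of `Z` then `sp(T i)` acts by
derivations of `H(Z^(n+1))` which can be chosen to commute with all endomorphisms of `Z^(n+1)`, in
particular with the permutations of the factors; so they are determined by their restriction to the
generators of the cohomology of one factor `Z`, and these restrictions are linearly independent for
the different `i`.
-/

open CategoryTheory AlgebraicGeometry

universe u

namespace Pool.Agent.Results.MP_d61fbb_ag.FinitelyManyFactors

open Pool.Agent.H914 Pool.Agent.H914.VarClass Pool.Agent.H914.VarClass.Obj Pool.Agent.Y132.AH
  Pool.Agent.X227.UP

variable {k : Type u} [Field k] {𝒱 : VarClass k} {ops : CycleOps 𝒱}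

theorem result (W : WeilCohomology.{u, 0} ops) [IsAlgClosed W.K] {Γ : Type} [Group Γ]
    (G : GaloisData W Γ) (hcyc : CyclesFixed G) {ι : Type} [DecidableEq ι] (X : ι → 𝒱.Obj)
    (hX : ∀ i, OddMiddle W (X i)) (hG : BigFamily G X) (Z : 𝒱.Obj) :
    ∃ B : Finset ι, GenBound W X Z B ∧ (∀ i ∈ B, ¬GalSep G (X i) Z) ∧
      ∀ C : Fam W, IsSys C → ∀ (n m : ℕ) (V : Set (W.H (powN Z n))), SubIn V m →
        ∀ L : List ι, InvariantsIn G C X V L ↔
          ∀ L' : List ι, L'.Sublist L → SmallDim W X (powN Z n) B L' →
            InvariantsIn G C X V L' :=
  inv_slim hcyc Z hX hG

end Pool.Agent.Results.MP_d61fbb_ag.FinitelyManyFactors
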