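import Pool.Agent.Results.MP_90d181_ag.IndependentDeterminants
import Pool.Agent.Results.MP_b8862a_ag.MixedTypesDensityOne
import Pool.Agent.X274.DI.Simw

/-!
# The motivic Sato-Tate conjecture for motives with independent determinants, at 100 percent of the
# primes `ℓ`

Let `M_0, ..., M_r` be motives (of André, or for absolute Hodge cycles) over a finitely generated field
`k`, pure of weights `w_i`, not all of them zero, `W_i = ω(M_i)`. A number field `E_i`, Galois over `ℚ`
(`E_i = ℚ` is allowed), acts on `M_i`, with the adjoints `bar a` (`a ∈ E_i`) for a polarization `J_i`: either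
`bar = 1` and `J_i` is alternating, or `E_i` is a CM field and `bar` is the complex conjugation. Let `n_i` be
the dimension of `W_i` over `E_i`. The motivic Galois group `𝒢_k(M)`, `M` the direct sum of the `M_i` and of the
Lefschetz motive, and the `ℓ`-adic monodromy groups `G_{ℓ,K}(M)` of all finite extensions `K` of `k` are
contained in the group `G` over `ℚ` of the pairs `(κ, g)` such that the `g_i ∈ GL(W_i)` commute with `E_i` and
`J_i(g_i x, g_i y) = κ ^ (w_i) J_i(x, y)`.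

**Theorem.** Suppose that
(1) for every `i` there is a place `v` such that the roots of `P_{i,v}` (the characteristic polynomial of
the Frobenius element on `M_i`) are simple and `x / y = z / u` for roots `x ≠ y`, `z`, `u` only in the trivial
cases;
(2) for every `i` the conditions on finitely many polynomials `P_{i,v}` of the definition `EnoughPlaces`
hold;
(3) for `i ≠ j` there is a place `v` such that the roots of `P_{i,v}` are simple and no quotient of two
different roots of `P_{i,v}` is a quotient of two roots of `P_{j,v}`;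
(4) there is a place `v`, with norm `q`, such that a product of conjugates `τ(d_{i,v})` of the determinants
of Frobenius over the CM fields `E_i` is a root of unity times a power of `q` only if the embeddings `τ`
and `τ ∘ bar` of `E_i` occur equally often in it, for all `i` and `τ`.
Then for all primes `ℓ` outside of a set of natural density zero
(a) the Lie algebra of the image of the Galois group contains the one of the derived group of `G`;
(b) every Tate class in the tensor powers of `M` (over any finite extension of `k`, with any twist) is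
invariant under `G`, over all extensions of `ℚ_ℓ`, hence under `𝒢_k(M)`, and conversely.
By (a) the group `G_{ℓ,K}(M)` contains the derived group of `G`, so it is normal in `G` and reductive, and
by (b) it has the same invariants in the tensor powers as the group `𝒢_k(M)_{ℚ_ℓ}` between `G_{ℓ,K}(M)` and
`G_{ℚ_ℓ}`, and as `G_{ℚ_ℓ}`. So **`G_{ℓ,K}(M) = 𝒢_k(M)_{ℚ_ℓ} = G_{ℚ_ℓ}` for all these `ℓ`, and the kernels of `κ`
are equal: the motivic Sato-Tate conjecture holds for `M` and `ℓ`**, and the algebraic Sato-Tate group is the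
group of the `g` in `G` with `κ = 1`. No extension of the base field is needed.

All hypotheses can be checked on finitely many reductions, and nothing is assumed about the motivic or
the Hodge groups or the representations at single primes. The odd and even weights, the type IV and
different weights `w_i` are allowed. The starting results and the other results for this problem need
a place of bad reduction, or a Frobenius polynomial of a special kind at the prime `ℓ` itself.

In the Lean statement `W_i = ℚ ^ (N_i)`, and the multiplier `κ` is `χ` on the Galois group (the inverse of the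
cyclotomic character); the group `Γ` is the Galois group of `k` (or a quotient of it which
acts), and `s` comes from a closed point of a model of `k`, with residue field `K` (if `k` is a number
field, then `K = k` and `s = id`). The proof uses the result `IndependentDeterminants` (problem
`MP_90d181_ag`): for these `ℓ` the Tate classes are combinations of products of the `J_i(a x, y)`. It remains
to see that only those products occur on which `κ` acts by the right power. Part (a) is the first part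
of the result `MixedTypesDensityOne` (problem `MP_b8862a_ag`), repeated here because the invariants alone
do not determine a group which is not known to be reductive.
-/

set_option autoImplicit false

namespace Pool.Agent.Results.MP_d61fbb_ag.IndependentDeterminantsSatoTate

open Matrix Polynomial Filter Topology NumberField IsDedekindDomain
open Pool.Agent.Results.MP_938ce2_ag.DeterminantClasses (AbsoluteGaloisGroup IsFrobenius
  IsMotivicFamily IsGenericPlace EnoughPlaces IsIndependent HasDensityZero)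
open Pool.Agent.Results.MP_90d181_ag.IndependentDeterminants (HasDeterminant AreIndependent
  IsPairingProduct AllTateClassesFromPairings)

/-- the matrix over `L` with the same entries -/
def baseChange (L : Type) [Field L] {N : ℕ} (A : Matrix (Fin N) (Fin N) ℚ) :
    Matrix (Fin N) (Fin N) L :=
  A.map fun x : ℚ => (x : L)

/-- the `L`-valued points `(κ, g)` of the algebraic group `G` over `ℚ`: the matrices `g_i` commute with the
field `E i` and are similitudes of the forms `J i` with the multipliers `κ ^ (w i)` -/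
def IsInGroup {r : ℕ} {N : Fin (r + 1) → ℕ} {E : Fin (r + 1) → Type} (w : Fin (r + 1) → ℤ)
    (ε : ∀ i, E i → Matrix (Fin (N i)) (Fin (N i)) ℚ)
    (J : ∀ i, Matrix (Fin (N i)) (Fin (N i)) ℚ) (L : Type) [Field L] (κ : L)
    (g : ∀ i, Matrix (Fin (N i)) (Fin (N i)) L) : Prop :=
  κ ≠ 0 ∧ ∀ i, (g i)ᵀ * baseChange L (J i) * g i = κ ^ w i • baseChange L (J i) ∧
    ∀ a, baseChange L (ε i a) * g i = g i * baseChange L (ε i a)

/-- the multilinear form in `k` variables on the direct sum of the spaces `L ^ (N i)` with the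
coefficients `c` in `ℚ_ℓ` -/
noncomputable def tensor {ℓ : ℕ} [Fact ℓ.Prime] (L : Type) [Field L] [Algebra ℚ_[ℓ] L] {r : ℕ}
    {N : Fin (r + 1) → ℕ} {k : ℕ} (c : (Fin k → Σ i, Fin (N i)) → ℚ_[ℓ])
    (v : Fin k → ∀ i, Fin (N i) → L) : L :=
  ∑ t, algebraMap ℚ_[ℓ] L (c t) * ∏ j, v j (t j).1 (t j).2

/-- for every open subgroup `U` of `Γ` (the Galois group of a finite extension of the ground field) the
tensors with coefficients in `ℚ_ℓ` on which `U` acts by the `m`-th power of `χ` (the Tate classes of twist `m`)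
are those on which the group `G` acts by the `m`-th power of the multiplier, over all fields `L` which
contain `ℚ_ℓ` -/
def MonodromyIsWholeGroup {Γ : Type} [Group Γ] [TopologicalSpace Γ] {r : ℕ}
    {N : Fin (r + 1) → ℕ} {E : Fin (r + 1) → Type} (w : Fin (r + 1) → ℤ)
    (ε : ∀ i, E i → Matrix (Fin (N i)) (Fin (N i)) ℚ)
    (J : ∀ i, Matrix (Fin (N i)) (Fin (N i)) ℚ) (ℓ : ℕ) [Fact ℓ.Prime]
    (χ : Γ →* ℚ_[ℓ]) (ρ : ∀ i, Γ →* Matrix (Fin (N i)) (Fin (N i)) ℚ_[ℓ]) : Prop :=
  ∀ (U : Subgroup Γ), IsOpen (U : Set Γ) → ∀ (k : ℕ) (m : ℤ)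
    (c : (Fin k → Σ i, Fin (N i)) → ℚ_[ℓ]),
    (∀ σ ∈ U, ∀ v, tensor ℚ_[ℓ] c (fun j i => ρ i σ *ᵥ v j i) = χ σ ^ m * tensor ℚ_[ℓ] c v) ↔
      ∀ (L : Type) [Field L] [Algebra ℚ_[ℓ] L] (κ : L)
        (g : ∀ i, Matrix (Fin (N i)) (Fin (N i)) L), IsInGroup w ε J L κ g →
        ∀ v, tensor L c (fun j i => g i *ᵥ v j i) = κ ^ m * tensor L c v

/-- the Lie algebra of the image of `Γ` contains all families `X` of matrices which commute with the fields
`E i`, are skew with respect to the forms `J i`, and satisfy `trace (X_i a) = 0` for `a ∈ E i`: for one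
sequence of elements `σ_k` of `Γ` all the `X i` are the limits of `ℓ ^ (-k) (ρ_i (σ_k) - 1)` -/
def ContainsDerivedGroup {Γ : Type} [Group Γ] {r : ℕ} {N : Fin (r + 1) → ℕ}
    {E : Fin (r + 1) → Type} (ε : ∀ i, E i → Matrix (Fin (N i)) (Fin (N i)) ℚ)
    (J : ∀ i, Matrix (Fin (N i)) (Fin (N i)) ℚ) (ℓ : ℕ) [Fact ℓ.Prime]
    (ρ : ∀ i, Γ →* Matrix (Fin (N i)) (Fin (N i)) ℚ_[ℓ]) : Prop :=
  ∀ X : ∀ i, Matrix (Fin (N i)) (Fin (N i)) ℚ_[ℓ],
    (∀ i a, X i * baseChange ℚ_[ℓ] (ε i a) = baseChange ℚ_[ℓ] (ε i a) * X i) →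
    (∀ i, (X i)ᵀ * baseChange ℚ_[ℓ] (J i) + baseChange ℚ_[ℓ] (J i) * X i = 0) →
    (∀ i a, (X i * baseChange ℚ_[ℓ] (ε i a)).trace = 0) →
    ∃ σ : ℕ → Γ, ∀ i, Tendsto (fun k : ℕ => ((ℓ : ℚ_[ℓ]) ^ k)⁻¹ • (ρ i (σ k) - 1)) atTop (𝓝 (X i))

theorem val_of_product {r : ℕ} {N : Fin (r + 1) → ℕ} (ℓ : ℕ) [Fact ℓ.Prime]
    {E : Fin (r + 1) → IntermediateField ℚ (AlgebraicClosure ℚ)}
    (ε : ∀ i, E i →+* Matrix (Fin (N i)) (Fin (N i)) ℚ)
    (J : ∀ i, Matrix (Fin (N i)) (Fin (N i)) ℚ) {k : ℕ} {A : Finset (Fin k)}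
    {f : (Fin k → ∀ i, Fin (N i) → ℚ_[ℓ]) → ℚ_[ℓ]}
    (hf : IsPairingProduct ℓ (fun i => ((Rat.castHom ℚ_[ℓ]).mapMatrix).comp (ε i))
      (fun i => baseChange ℚ_[ℓ] (J i)) A f) :
    ∃ F : ∀ (L : Type) [Field L] [CharZero L], (Fin k → ∀ i, Fin (N i) → L) → L,
      X274.DI.Val k (fun i (a : E i) => ε i a) J A F ∧ f = F ℚ_[ℓ] := by
  induction hf with
  | one => exact ⟨fun _ _ _ _ => 1, X274.DI.Val.one, rfl⟩
  | @pairing A f i a j j' hne hj hj' h ih =>
    obtain ⟨F, hF, hfF⟩ := ih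
    have h1 := X274.DI.Val.pair (ε := fun i (a : E i) => ε i a) (J := J) i a j j' hne hj hj' hF
    refine ⟨_, h1, ?_⟩
    funext v
    rw [hfF]
    rfl

/-- the powers of a natural number `Q ≥ 2` in `ℚ_ℓ` are different -/
theorem pow_inj (ℓ : ℕ) [Fact ℓ.Prime] {Q : ℕ} (hQ : 1 < Q) {a b : ℤ}
    (h : (Q : ℚ_[ℓ]) ^ a = (Q : ℚ_[ℓ]) ^ b) : a = b := by
  have h8 : (Q : ℚ) ^ a = (Q : ℚ) ^ b := by
    have h9 : (((Q : ℚ) ^ a : ℚ) : ℚ_[ℓ]) = (((Q : ℚ) ^ b : ℚ) : ℚ_[ℓ]) := by
      rw [Rat.cast_zpow, Rat.cast_zpow, Rat.cast_natCast]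
      exact h
    exact Rat.cast_injective h9
  have hQ1 : (1 : ℚ) < (Q : ℚ) := by exact_mod_cast hQ
  exact zpow_right_injective₀ (by positivity) hQ1.ne' h8

/-- **The motivic Sato-Tate conjecture for motives with independent determinants, at 100 percent of the
primes.** -/
theorem result (K : Type) [Field K] [NumberField K] (Γ : Type) [Group Γ] [TopologicalSpace Γ]
    [IsTopologicalGroup Γ] [CompactSpace Γ] (s : AbsoluteGaloisGroup K →* Γ) (hs : Continuous s)
    (S : Set (HeightOneSpectrum (𝓞 K))) (hS : S.Finite)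
    (r : ℕ) (N n : Fin (r + 1) → ℕ) (w : Fin (r + 1) → ℤ) (hw : ∃ i, w i ≠ 0)
    (P : Fin (r + 1) → HeightOneSpectrum (𝓞 K) → ℚ[X])
    (χ : ∀ (ℓ : ℕ) [Fact ℓ.Prime], Γ →* ℚ_[ℓ])
    (ρ : ∀ (ℓ : ℕ) [Fact ℓ.Prime] (i : Fin (r + 1)), Γ →* Matrix (Fin (N i)) (Fin (N i)) ℚ_[ℓ])
    (J : ∀ i : Fin (r + 1), Matrix (Fin (N i)) (Fin (N i)) ℚ)
    (hρ : ∀ (ℓ : ℕ) [Fact ℓ.Prime], IsMotivicFamily K s N w ℓ (χ ℓ) (ρ ℓ)
      (fun i => baseChange ℚ_[ℓ] (J i)) S P)
    -- the coefficients
    (E : Fin (r + 1) → IntermediateField ℚ (AlgebraicClosure ℚ)) [∀ i, FiniteDimensional ℚ (E i)]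
    [∀ i, Normal ℚ (E i)] (bar : ∀ i, E i →+* E i)
    (hJ : ∀ i, (∀ a, bar i a = a) → (J i)ᵀ = -J i)
    (hn : ∀ i, 0 < n i) (hN : ∀ i, N i = n i * Module.finrank ℚ (E i))
    (ε : ∀ i : Fin (r + 1), E i →+* Matrix (Fin (N i)) (Fin (N i)) ℚ)
    (hεJ : ∀ i a, (ε i a)ᵀ * J i = J i * ε i (bar i a))
    (hερ : ∀ (ℓ : ℕ) [Fact ℓ.Prime] (i : Fin (r + 1)) (a : E i) (γ : Γ),
      baseChange ℚ_[ℓ] (ε i a) * ρ ℓ i γ = ρ ℓ i γ * baseChange ℚ_[ℓ] (ε i a))
    -- the places
    (hgen : ∀ i, ∃ v, IsGenericPlace S (P i) (w i) v)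
    (hplaces : ∀ i, EnoughPlaces (E i) (n i) (N i) S (P i))
    (hind : ∀ i j, i ≠ j → IsIndependent S (P i) (P j))
    -- the determinants
    (v : HeightOneSpectrum (𝓞 K)) (hv : v ∉ S) (d : ∀ i, E i)
    (hd : ∀ (ℓ : ℕ) [Fact ℓ.Prime], (ℓ : 𝓞 K) ∉ v.asIdeal →
      ∀ σ : AbsoluteGaloisGroup K, IsFrobenius v σ → ∀ i, (∃ a, bar i a ≠ a) →
        HasDeterminant (n i) (((Rat.castHom ℚ_[ℓ]).mapMatrix).comp (ε i)) (ρ ℓ i (s σ⁻¹)) (d i))
    (hdi : AreIndependent bar d (Ideal.absNorm v.asIdeal)) :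
    HasDensityZero {ℓ | ∃ _ : Fact ℓ.Prime,
      ¬ (ContainsDerivedGroup (fun i (a : E i) => ε i a) J ℓ (ρ ℓ) ∧
        MonodromyIsWholeGroup w (fun i (a : E i) => ε i a) J ℓ (χ ℓ) (ρ ℓ))} := by
  classical
  have hbc : ∀ (ℓ : ℕ) [Fact ℓ.Prime] {N : ℕ} (A : Matrix (Fin N) (Fin N) ℚ),
      baseChange ℚ_[ℓ] A = (Rat.castHom ℚ_[ℓ]).mapMatrix A := fun ℓ _ N A => rfl
  have hcoef : ∀ (ℓ : ℕ) [Fact ℓ.Prime] (i : Fin (r + 1)),
      MP_938ce2_ag.DeterminantClasses.IsCoefficientAction (E i) (bar i) (n i) (ρ ℓ i)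
        (((Rat.castHom ℚ_[ℓ]).mapMatrix).comp (ε i)) (baseChange ℚ_[ℓ] (J i)) := by
    intro ℓ _ i
    refine ⟨hερ ℓ i, fun a => ?_, fun a => ?_⟩
    · have h1 := congrArg (baseChange ℚ_[ℓ]) (hεJ i a)
      rw [hbc, hbc, map_mul, map_mul] at h1
      exact h1
    · have h1 := X274.HD.trace_of_field (hN i) (ε i) a
      have h2 : (baseChange ℚ_[ℓ] (ε i a)).trace = (((ε i a).trace : ℚ) : ℚ_[ℓ]) := by
        simp [baseChange, Matrix.trace]
      show (baseChange ℚ_[ℓ] (ε i a)).trace = _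
      rw [h2, h1]
      push_cast
      rfl
  have hmain := MP_90d181_ag.IndependentDeterminants.result K Γ s hs S hS r N n w hw P χ ρ
    (fun ℓ _ i => baseChange ℚ_[ℓ] (J i)) hρ E bar (fun ℓ _ i hi => by
      show baseChange ℚ_[ℓ] (J i)ᵀ = -baseChange ℚ_[ℓ] (J i)
      rw [hJ i hi]
      ext a b
      simp [baseChange]) hn hN
    (fun ℓ _ i => ((Rat.castHom ℚ_[ℓ]).mapMatrix).comp (ε i)) hcoef hgen hplaces hind v hv d hd hdi
  have hder := MP_b8862a_ag.MixedTypesDensityOne.result K Γ s hs S hS r N n w P χ ρ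
    (fun ℓ _ i => baseChange ℚ_[ℓ] (J i)) hρ E bar hn hN
    (fun ℓ _ i => ((Rat.castHom ℚ_[ℓ]).mapMatrix).comp (ε i)) hcoef hgen hplaces hind
  have hbig : Y142.ZI.DensityZero {ℓ : ℕ | ℓ ≤ Ideal.absNorm v.asIdeal} :=
    X274.TH.density_finite _
  refine Y142.ZI.DensityZero.mono ((hbig.union hmain).union hder) ?_
  rintro ℓ ⟨hp, hno⟩
  by_cases hdℓ : MP_b8862a_ag.MixedTypesDensityOne.ContainsGroup w ℓ bar (ρ ℓ)
      (fun i => ((Rat.castHom ℚ_[ℓ]).mapMatrix).comp (ε i)) (fun i => baseChange ℚ_[ℓ] (J i))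
  swap
  · exact Or.inr ⟨hp, fun h => hdℓ h.1⟩
  refine Or.inl ?_
  by_cases hℓ : ℓ ≤ Ideal.absNorm v.asIdeal
  · exact Or.inl hℓ
  refine Or.inr ⟨hp, fun hall => hno ⟨hdℓ.1, ?_⟩⟩
  have hvℓ : (ℓ : 𝓞 K) ∉ v.asIdeal := Y142.ZO.not_mem_of_lt v hp.out (by omega)
  intro U hU k m c
  obtain ⟨σ₀, hσ₀⟩ := Pool.Agent.W401.Frob.exists_frob v
  have hfr := (hρ ℓ).2.2 v hv hvℓ σ₀ hσ₀
  have hsim : ∀ σ i, (ρ ℓ i σ)ᵀ * X274.DI.cst ℚ_[ℓ] (J i) * ρ ℓ i σ =
      χ ℓ σ ^ w i • X274.DI.cst ℚ_[ℓ] (J i) := fun σ i => ((hρ ℓ).2.1 i).2.2.2 σ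
  have hχ0 : ∀ σ, χ ℓ σ ≠ 0 := by
    intro σ h
    have h1 : χ ℓ (σ * σ⁻¹) = 0 := by rw [map_mul, h, zero_mul]
    rw [mul_inv_cancel, map_one] at h1
    exact one_ne_zero h1
  constructor
  · intro hφ
    let φ : MultilinearMap ℚ_[ℓ] (fun _ : Fin k => ∀ i, Fin (N i) → ℚ_[ℓ]) ℚ_[ℓ] :=
      X274.HD.mk c
    have hφc : ∀ v, φ v = tensor ℚ_[ℓ] c v := by
      intro v
      show X274.HD.mk c v = _
      rw [X274.HD.mk_apply]
      rfl
    have h1 := hall k m φ U hU (fun σ hσ v => by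
      rw [hφc, hφc]
      exact hφ σ hσ v)
    -- the Frobenius element
    have hfin : U.FiniteIndex := by
      have : Finite (Γ ⧸ U) := Subgroup.quotient_finite_of_isOpen U hU
      exact Subgroup.finiteIndex_of_finite_quotient
    obtain ⟨e, he, -, heU⟩ :=
      Subgroup.exists_pow_mem_of_index_ne_zero hfin.index_ne_zero (s σ₀⁻¹)
    have hq : 1 < Ideal.absNorm v.asIdeal := by
      have h6 : Ideal.absNorm v.asIdeal ≠ 0 := by
        rw [Ne, Ideal.absNorm_eq_zero_iff]
        exact v.ne_bot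
      have h7 : Ideal.absNorm v.asIdeal ≠ 1 := by
        rw [Ne, Ideal.absNorm_eq_one_iff]
        exact v.isPrime.ne_top
      omega
    have hqe : 1 < Ideal.absNorm v.asIdeal ^ e := one_lt_pow₀ hq he.ne'
    have hχe : χ ℓ (s σ₀⁻¹ ^ e) = ((Ideal.absNorm v.asIdeal ^ e : ℕ) : ℚ_[ℓ]) := by
      rw [map_pow, hfr.1, Nat.cast_pow]
    set Q := Ideal.absNorm v.asIdeal ^ e with hQdef
    let Λ : Module.End ℚ_[ℓ] ((Fin k → ∀ i, Fin (N i) → ℚ_[ℓ]) → ℚ_[ℓ]) :=
      { toFun := fun g v => g fun j i => ρ ℓ i (s σ₀⁻¹ ^ e) *ᵥ v j i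
        map_add' := fun _ _ => rfl
        map_smul' := fun _ _ => rfl }
    have h2 := X274.DI.mem_span_eigen Λ _ (fun f hf => by
      obtain ⟨F, hF, rfl⟩ := val_of_product ℓ ε J hf
      obtain ⟨t, ht⟩ := hF.simw w
      refine ⟨(Q : ℚ_[ℓ]) ^ t, ?_⟩
      funext v
      have h3 := ht ℚ_[ℓ] (χ ℓ (s σ₀⁻¹ ^ e)) (hχ0 _) (fun i => ρ ℓ i (s σ₀⁻¹ ^ e)) (hsim _)
        (fun i a => hερ ℓ i a _) v
      rw [hχe] at h3
      exact h3) ((Q : ℚ_[ℓ]) ^ m) h1 (by
      funext v
      have h3 := hφ _ heU v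
      rw [hχe] at h3
      show φ _ = (Q : ℚ_[ℓ]) ^ m * φ v
      rw [hφc, hφc]
      exact h3)
    -- over the bigger field
    intro L _ _ κ g hg
    have hL : CharZero L := charZero_of_injective_algebraMap (algebraMap ℚ_[ℓ] L).injective
    let ev : ((Fin k → ∀ i, Fin (N i) → ℚ_[ℓ]) → ℚ_[ℓ]) →ₗ[ℚ_[ℓ]]
        ((Fin k → Σ i, Fin (N i)) → ℚ_[ℓ]) :=
      { toFun := fun f t => f fun j => X274.HD.bas (t j)
        map_add' := fun _ _ => rfl
        map_smul' := fun _ _ => rfl }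
    have hev : ev (fun v => φ v) = c := by
      funext t
      exact X274.HD.mk_bas c t
    have h3 : ∀ f ∈ Submodule.span ℚ_[ℓ] {f : (Fin k → ∀ i, Fin (N i) → ℚ_[ℓ]) → ℚ_[ℓ] |
        f ∈ {f : (Fin k → ∀ i, Fin (N i) → ℚ_[ℓ]) → ℚ_[ℓ] |
          IsPairingProduct ℓ (fun i => ((Rat.castHom ℚ_[ℓ]).mapMatrix).comp (ε i))
            (fun i => baseChange ℚ_[ℓ] (J i)) Finset.univ f} ∧ Λ f = (Q : ℚ_[ℓ]) ^ m • f},
        ∀ v, tensor L (ev f) (fun j i => g i *ᵥ v j i) = κ ^ m * tensor L (ev f) v := by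
      intro f hf
      induction hf using Submodule.span_induction with
      | mem f hf =>
        obtain ⟨hf, hΛ⟩ := hf
        by_cases hf0 : f = 0
        · intro v
          rw [hf0, map_zero]
          simp [tensor]
        obtain ⟨F, hF, rfl⟩ := val_of_product ℓ ε J hf
        obtain ⟨t, ht⟩ := hF.simw w
        have htm : t = m := by
          obtain ⟨v₁, hv₁⟩ : ∃ v₁, F ℚ_[ℓ] v₁ ≠ 0 := by
            by_contra hno
            push Not at hno
            exact hf0 (funext hno)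
          have h4 := ht ℚ_[ℓ] (χ ℓ (s σ₀⁻¹ ^ e)) (hχ0 _) (fun i => ρ ℓ i (s σ₀⁻¹ ^ e)) (hsim _)
            (fun i a => hερ ℓ i a _) v₁
          rw [hχe] at h4
          have h5 : F ℚ_[ℓ] (fun j i => ρ ℓ i (s σ₀⁻¹ ^ e) *ᵥ v₁ j i) =
              (Q : ℚ_[ℓ]) ^ m * F ℚ_[ℓ] v₁ := congrFun hΛ v₁
          rw [h5] at h4
          exact (pow_inj ℓ hqe (mul_right_cancel₀ hv₁ h4)).symm
        subst htm
        -- the coefficients
        have h4 : ∀ v : Fin k → ∀ i, Fin (N i) → L, tensor L (ev (F ℚ_[ℓ])) v = F L v := by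
          intro v
          rw [hF.coeff L v]
          unfold tensor
          refine Finset.sum_congr rfl fun τ _ => ?_
          congr 1
          show algebraMap ℚ_[ℓ] L (F ℚ_[ℓ] fun j => X274.HD.bas (τ j)) = _
          have h5 : F ℚ_[ℓ] (fun j => X274.HD.bas (τ j)) =
              ((F ℚ (fun j => X274.HD.bas (τ j)) : ℚ) : ℚ_[ℓ]) := by
            rw [← hF.cast ℚ_[ℓ]]
            congr 1
            funext j
            exact X274.DI.bas_cst (τ j)
          rw [h5, map_ratCast]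
        intro v
        rw [h4, h4]
        exact ht L κ hg.1 g (fun i => (hg.2 i).1) (fun i a => (hg.2 i).2 a) v
      | zero =>
        intro v
        rw [map_zero]
        simp [tensor]
      | add f f' _ _ hf hf' =>
        intro v
        have h5 : ∀ v : Fin k → ∀ i, Fin (N i) → L, tensor L (ev (f + f')) v =
            tensor L (ev f) v + tensor L (ev f') v := by
          intro v
          unfold tensor
          rw [← Finset.sum_add_distrib]
          refine Finset.sum_congr rfl fun t _ => ?_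
          rw [map_add, Pi.add_apply, map_add, add_mul]
        rw [h5, h5, hf, hf', mul_add]
      | smul x f _ hf =>
        intro v
        have h5 : ∀ v : Fin k → ∀ i, Fin (N i) → L, tensor L (ev (x • f)) v =
            algebraMap ℚ_[ℓ] L x * tensor L (ev f) v := by
          intro v
          unfold tensor
          rw [Finset.mul_sum]
          refine Finset.sum_congr rfl fun t _ => ?_
          rw [map_smul, Pi.smul_apply, smul_eq_mul, map_mul, mul_assoc]
        rw [h5, h5, hf]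
        ring
    have h4 := h3 _ h2
    rw [hev] at h4
    exact h4
  · intro h σ _ v
    exact h ℚ_[ℓ] (χ ℓ σ) (fun i => ρ ℓ i σ)
      ⟨hχ0 σ, fun i => ⟨hsim σ i, fun a => hερ ℓ i a σ⟩⟩ v

end Pool.Agent.Results.MP_d61fbb_ag.IndependentDeterminantsSatoTate
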