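import Pool.Agent.X120.BM.Mt

/-!
# Motivic Galois groups and monodromy groups for sums of a motive and of the fibres over `b_i^(-t_i)` of
# families of Calabi-Yau type with big symplectic monodromy

Let `V_i`, `1 ≤ i ≤ k`, be variations of Hodge structure of weight `w` with `h^{w, 0} = 1` (of Calabi-Yau type) over the projective line without finitely many points, which come from families over `ℚ`, with a
nondegenerate alternating form, such that the monodromy group is dense in a symplectic group. The fibre over `x = 0` may be smooth or degenerate: we suppose that near `x = 0` the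
period matrix is `L_i(log (1/x)) P_i(x)`, where the entries of `P_i` are polynomials with any complex coefficients in a system of G-functions with rational coefficients which are solutions of a
differential system with a regular singularity with rational exponents at infinity, and the entries of `L_i(u)` are polynomials. Let `M_i` be the motive with realisation `V_i` over the rational
point `b_i^(-t_i)`, and let `M_0` be any motive which is pure of weight `w`, with Betti realisation of dimension `n_0` (`n_0 = 0` is possible), with polarisation `A_0` and Hodge operator `Φ_0` (multiplication by `p` on `H^{p,q}`),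
and `M = M_0 ⊕ M_1 ⊕ … ⊕ M_k`, `φ = A_0 ⊕ A_1 ⊕ … ⊕ A_k`.

The Lie algebra `𝔤` of the motivic Galois group `𝒢(M)` is a rational Lie algebra whose complexification contains the Hodge operator `(Φ_0, Φ_1, …, Φ_k)`, and its elements multiply `φ` by a scalar, the derivative of `χ`
(`IsMotivic`); its projection to the operators on `M_0` is the Lie algebra of `𝒢(M_0)`. The Lie algebra `L` of the `ℓ`-adic monodromy group `G_ℓ(M)` is contained in `𝔤 ⊗ ℚ_ℓ`, its projection is the Lie algebra of `G_ℓ(M_0)`. The Lie algebras of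
`𝒢_1` and `G_{1,ℓ}` are the elements which multiply `φ` by `0`. The Lie algebra of the Mumford-Tate group is the smallest rational Lie algebra whose complexification contains the Hodge operator.

**Theorem.** Let `b_i ≥ 2` be integers. There is a constant `C`, which depends only on the G-functions, the ranks, the degrees `e` of the polynomials, the `b_i` and on `n_0`, such that for all such `M_0` and
`V_i`, for all but `C N^(k-1) log N` of the `N^k` points `x = (b_1^(-t_1), …, b_k^(-t_k))`, `1 ≤ t_i ≤ N` (for `k = 1` for all but `C log N` of the points `b^(-t)`):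

1. `Lie 𝒢_1(M) = Lie 𝒢_1(M_0) × 𝔰𝔭(V_1) × … × 𝔰𝔭(V_k)`, and `Lie 𝒢(M)` consists of all operators which multiply `φ` by a scalar and with a component on `M_0` in `Lie 𝒢(M_0)`.

2. Serre's conjecture `G_σ = 𝒢°` is true for `M` if and only if it is true for `M_0` (so it is true if `M_0 = 0`, or if `M_0` is a motive of an abelian variety).

3. For all primes `ℓ` and number fields, `G_{1,ℓ}(M)° = 𝒢_1(M)°_{ℚ_ℓ}` if and only if `G_{1,ℓ}(M_0)° = 𝒢_1(M_0)°_{ℚ_ℓ}` and `G_ℓ(M)` contains `1 × ∏ Sp(V_i)`.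

So the question (for the identity components) is reduced to `M_0` and to a question on Galois representations only. For one family and `M_0 = 0` the image of the Galois group is open in the group of similitudes for all but
finitely many rational points by Cadoret and Tamagawa, so that 3. gives the conjecture for the identity components for all but `C log N` of the points `b^(-t)`, `t ≤ N`.
Such results were known only for families of abelian type and for the hypergeometric families; here the families are general.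

Proof. By the counting theorem on geometric sequences all rational Lie algebras whose complexifications contain the Hodge operator contain `0 × ∏ sp(V_i)` for these points (`Pool.Agent.X120.HG`, `Pool.Agent.X120.BM`).
-/

set_option autoImplicit false

open Pool.Agent.X120.BM

namespace Pool.Agent.Results.MP_d61fbb_ag.MotivicGroupsAtPowers

section
variable {n₀ k : ℕ} {n : Fin k → ℕ} {E : Type} [Field E] [Algebra ℚ E]

/-- `X` multiplies the form `A_0 ⊕ A_1 ⊕ … ⊕ A_k` by `c`. -/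
def IsMult (A₀ : Matrix (Fin n₀) (Fin n₀) ℚ) (A : ∀ i, Matrix (Fin (n i)) (Fin (n i)) ℚ) (c : E) (X : Tup n₀ n E) : Prop :=
  X.1 * A₀.map (algebraMap ℚ E) + A₀.map (algebraMap ℚ E) * X.1.transpose = c • A₀.map (algebraMap ℚ E) ∧
    ∀ i, X.2 i * (A i).map (algebraMap ℚ E) + (A i).map (algebraMap ℚ E) * (X.2 i).transpose = c • (A i).map (algebraMap ℚ E)

/-- `𝔤` is a rational Lie algebra whose complexification contains the Hodge operator, its elements multiply the form by scalars. -/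
structure IsMotivic (Φ₀ : Matrix (Fin n₀) (Fin n₀) ℂ) (Φ : ∀ i, Matrix (Fin (n i)) (Fin (n i)) ℂ)
    (A₀ : Matrix (Fin n₀) (Fin n₀) ℚ) (A : ∀ i, Matrix (Fin (n i)) (Fin (n i)) ℚ) (𝔤 : Submodule ℚ (Tup n₀ n ℚ)) : Prop where
  lie : IsLie 𝔤
  hodge : (Φ₀, Φ) ∈ extend ℂ 𝔤
  mult : ∀ X ∈ 𝔤, ∃ c : ℚ, IsMult A₀ A c X

/-- the projection to the operators on `M_0` -/
def image (L : Submodule E (Tup n₀ n E)) : Submodule E (Matrix (Fin n₀) (Fin n₀) E) := L.map (LinearMap.fst E _ _)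

/-- the elements of `L` which multiply the form by `0` -/
def kernel (A₀ : Matrix (Fin n₀) (Fin n₀) ℚ) (A : ∀ i, Matrix (Fin (n i)) (Fin (n i)) ℚ) (L : Submodule E (Tup n₀ n E)) :
    Set (Tup n₀ n E) := {X | X ∈ L ∧ IsMult A₀ A 0 X}

/-- the elements of `L₀` which multiply the form `A₀` by `0` -/
def kernel₀ (A₀ : Matrix (Fin n₀) (Fin n₀) ℚ) (L₀ : Submodule E (Matrix (Fin n₀) (Fin n₀) E)) :
    Set (Matrix (Fin n₀) (Fin n₀) E) :=
  {Y | Y ∈ L₀ ∧ Y * A₀.map (algebraMap ℚ E) + A₀.map (algebraMap ℚ E) * Y.transpose = 0}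

/-- `X ∈ 𝔰𝔭(A_1)(E) × … × 𝔰𝔭(A_k)(E)` -/
def IsSpTuple (A : ∀ i, Matrix (Fin (n i)) (Fin (n i)) ℚ) (X : ∀ i, Matrix (Fin (n i)) (Fin (n i)) E) : Prop :=
  ∀ i, X i * (A i).map (algebraMap ℚ E) + (A i).map (algebraMap ℚ E) * (X i).transpose = 0

/-- `𝔤` consists of all operators which multiply the form by a scalar and with a component on `M_0` in the projection of `𝔤`; and `𝔤_1 = 𝔤_{0,1} × ∏ 𝔰𝔭(A_i)`. -/
def IsMaximal (A₀ : Matrix (Fin n₀) (Fin n₀) ℚ) (A : ∀ i, Matrix (Fin (n i)) (Fin (n i)) ℚ) (𝔤 : Submodule ℚ (Tup n₀ n ℚ)) : Prop :=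
  (∀ X : Tup n₀ n ℚ, X ∈ 𝔤 ↔ X.1 ∈ image 𝔤 ∧ ∃ c : ℚ, IsMult A₀ A c X) ∧
    ∀ X : Tup n₀ n ℚ, X ∈ kernel A₀ A 𝔤 ↔ X.1 ∈ kernel₀ A₀ (image 𝔤) ∧ IsSpTuple A X.2

/-- Serre's conjecture for `M` is equivalent to that for `M_0`. -/
def SerreReduces (Φ₀ : Matrix (Fin n₀) (Fin n₀) ℂ) (Φ : ∀ i, Matrix (Fin (n i)) (Fin (n i)) ℂ)
    (𝔤 : Submodule ℚ (Tup n₀ n ℚ)) : Prop := 𝔤 = mumfordTate Φ₀ Φ ↔ image 𝔤 = mumfordTate₀ Φ₀

/-- The equality of `L_1` with `𝔤_1` over `E` is equivalent to that for `M_0`, if `L` contains `0 × 𝔰𝔭(A_1)(E) × … × 𝔰𝔭(A_k)(E)`. -/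
def SatoTateReduces (A₀ : Matrix (Fin n₀) (Fin n₀) ℚ) (A : ∀ i, Matrix (Fin (n i)) (Fin (n i)) ℚ) (𝔤 : Submodule ℚ (Tup n₀ n ℚ))
    (L : Submodule E (Tup n₀ n E)) : Prop :=
  kernel A₀ A L = kernel A₀ A (extend E 𝔤) ↔
    kernel₀ A₀ (image L) = kernel₀ A₀ (extend₀ E (image 𝔤)) ∧
      ∀ X : ∀ i, Matrix (Fin (n i)) (Fin (n i)) E, IsSpTuple A X → (0, X) ∈ L

variable {A₀ : Matrix (Fin n₀) (Fin n₀) ℚ} {A : ∀ i, Matrix (Fin (n i)) (Fin (n i)) ℚ}

theorem map_id {m : ℕ} (M : Matrix (Fin m) (Fin m) ℚ) : M.map (algebraMap ℚ ℚ) = M := by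
  ext a b
  rfl

theorem mult_add {c c' : E} {X Y : Tup n₀ n E} (h : IsMult A₀ A c X) (h' : IsMult A₀ A c' Y) : IsMult A₀ A (c + c') (X + Y) := by
  refine ⟨?_, fun i => ?_⟩
  · rw [Prod.fst_add, Matrix.add_mul, Matrix.transpose_add, Matrix.mul_add, add_smul, ← h.1, ← h'.1]
    abel
  · rw [Prod.snd_add, Pi.add_apply, Matrix.add_mul, Matrix.transpose_add, Matrix.mul_add, add_smul, ← h.2 i, ← h'.2 i]
    abel

theorem mult_smul {c : E} {X : Tup n₀ n E} (q : E) (h : IsMult A₀ A c X) : IsMult A₀ A (q * c) (q • X) := by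
  refine ⟨?_, fun i => ?_⟩
  · rw [Prod.smul_fst, Matrix.smul_mul, Matrix.transpose_smul, Matrix.mul_smul, ← smul_add, h.1, smul_smul]
  · rw [Prod.smul_snd, Pi.smul_apply, Matrix.smul_mul, Matrix.transpose_smul, Matrix.mul_smul, ← smul_add, h.2 i, smul_smul]

theorem mult_zero : IsMult A₀ A (0 : E) (0 : Tup n₀ n E) := by
  refine ⟨?_, fun i => ?_⟩
  · rw [Prod.fst_zero, Matrix.zero_mul, Matrix.transpose_zero, Matrix.mul_zero, zero_smul, add_zero]
  · rw [Prod.snd_zero, Pi.zero_apply, Matrix.zero_mul, Matrix.transpose_zero, Matrix.mul_zero, zero_smul, add_zero]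

theorem map_one' {m : ℕ} {c : ℚ} {X B : Matrix (Fin m) (Fin m) ℚ} (h : X * B + B * X.transpose = c • B) :
    X.map (algebraMap ℚ E) * B.map (algebraMap ℚ E) + B.map (algebraMap ℚ E) * (X.map (algebraMap ℚ E)).transpose =
      algebraMap ℚ E c • B.map (algebraMap ℚ E) := by
  have h3 := congrArg (fun M : Matrix (Fin m) (Fin m) ℚ => M.map (algebraMap ℚ E)) h
  have h4 : (X * B + B * X.transpose).map (algebraMap ℚ E) =
      X.map (algebraMap ℚ E) * B.map (algebraMap ℚ E) + B.map (algebraMap ℚ E) * (X.map (algebraMap ℚ E)).transpose := by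
    rw [Matrix.map_add _ (map_add _), Matrix.map_mul, Matrix.map_mul]
    rfl
  refine h4.symm.trans (h3.trans ?_)
  ext a b
  exact map_mul (algebraMap ℚ E) _ _

theorem mult_cast {c : ℚ} {X : Tup n₀ n ℚ} (h : IsMult A₀ A c X) : IsMult A₀ A (algebraMap ℚ E c) (castTup E X) := by
  obtain ⟨h1, h2⟩ := h
  rw [map_id] at h1
  refine ⟨map_one' h1, fun i => ?_⟩
  have h3 := h2 i
  rw [map_id] at h3
  exact map_one' h3

theorem ph_one {m : ℕ} {c : E} {X : Matrix (Fin m) (Fin m) E} {B : Matrix (Fin m) (Fin m) ℚ} (φ : E →ₗ[ℚ] ℚ)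
    (h : X * B.map (algebraMap ℚ E) + B.map (algebraMap ℚ E) * X.transpose = c • B.map (algebraMap ℚ E)) :
    X.map φ * B + B * (X.map φ).transpose = φ c • B := by
  have h3 := congrArg (fun M : Matrix (Fin m) (Fin m) E => M.map φ) h
  have e1 : B * (X.map φ).transpose = (B.map (algebraMap ℚ E) * X.transpose).map φ := (phM_mulL φ _ _).symm
  rw [← phM_mulR, e1]
  have h4 : (X * B.map (algebraMap ℚ E) + B.map (algebraMap ℚ E) * X.transpose).map φ =
      (X * B.map (algebraMap ℚ E)).map φ + (B.map (algebraMap ℚ E) * X.transpose).map φ := by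
    ext a b
    exact map_add φ _ _
  refine h4.symm.trans (h3.trans ?_)
  ext a b
  show φ (c * algebraMap ℚ E (B a b)) = φ c * B a b
  rw [mul_comm c, ← Algebra.smul_def, map_smul, smul_eq_mul, mul_comm]

theorem mult_ph {c : E} {X : Tup n₀ n E} (φ : E →ₗ[ℚ] ℚ) (h : IsMult A₀ A c X) : IsMult A₀ A (φ c) (phT φ X) := by
  refine ⟨?_, fun i => ?_⟩
  · rw [map_id]
    exact ph_one φ h.1
  · rw [map_id]
    exact ph_one φ (h.2 i)

theorem mult_scalar (hn : 0 < n₀) (hA₀ : A₀.det ≠ 0) {c c' : E} {X Y : Tup n₀ n E} (hXY : X.1 = Y.1)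
    (h : IsMult A₀ A c X) (h' : IsMult A₀ A c' Y) : c = c' := by
  have h1 : c • A₀.map (algebraMap ℚ E) = c' • A₀.map (algebraMap ℚ E) := by rw [← h.1, ← h'.1, hXY]
  by_contra hne
  have h2 : A₀ = 0 := by
    ext a b
    have h3 := congrFun (congrFun h1 a) b
    have h4 : (c - c') * algebraMap ℚ E (A₀ a b) = 0 := by
      rw [sub_mul, sub_eq_zero]
      exact h3
    exact (algebraMap ℚ E).injective ((mul_eq_zero.1 h4).resolve_left (sub_ne_zero.2 hne) |>.trans (map_zero _).symm)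
  have : Nonempty (Fin n₀) := ⟨⟨0, hn⟩⟩
  rw [h2, Matrix.det_zero] at hA₀
  exact hA₀ rfl

theorem sub_sp {c : E} {X Y : Tup n₀ n E} (h : IsMult A₀ A c X) (h' : IsMult A₀ A c Y) : IsSpTuple A (X.2 - Y.2) := by
  intro i
  rw [Pi.sub_apply, Matrix.transpose_sub, Matrix.sub_mul, Matrix.mul_sub, sub_add_sub_comm, h.2 i, h'.2 i, sub_self]

theorem split {X Y : Tup n₀ n E} (h : Y.1 = X.1) : X = Y + ((0, X.2 - Y.2) : Tup n₀ n E) := by
  refine Prod.ext ?_ ?_
  · rw [Prod.fst_add, h, add_zero]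
  · rw [Prod.snd_add]
    exact (add_sub_cancel _ _).symm

variable {Φ₀ : Matrix (Fin n₀) (Fin n₀) ℂ} {Φ : ∀ i, Matrix (Fin (n i)) (Fin (n i)) ℂ} {w : ℕ}
  {H : ∀ i, ℕ → Submodule ℂ (Fin (n i) → ℂ)}

/-- the elements of `𝔤` -/
theorem mem_of {𝔤 : Submodule ℚ (Tup n₀ n ℚ)} (h𝔤 : IsMotivic Φ₀ Φ A₀ A 𝔤) (hA₀ : A₀.det ≠ 0) (hw : 0 < w)
    (hΦ : ∀ i, Φ i * (A i).map (algebraMap ℚ ℂ) + (A i).map (algebraMap ℚ ℂ) * (Φ i).transpose = (w : ℂ) • (A i).map (algebraMap ℚ ℂ))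
    (hsp : ∀ X : ∀ i, Matrix (Fin (n i)) (Fin (n i)) ℚ, IsSpTuple A X → ((0, X) : Tup n₀ n ℚ) ∈ 𝔤)
    {X : Tup n₀ n ℚ} (hX : X.1 ∈ image 𝔤) {c : ℚ} (hc : IsMult A₀ A c X) : X ∈ 𝔤 := by
  obtain ⟨Y, hY, hYX⟩ := hX
  have hYX' : Y.1 = X.1 := hYX
  obtain ⟨c', hc'⟩ := h𝔤.mult Y hY
  rcases Nat.eq_zero_or_pos n₀ with h0 | h0
  · subst h0
    -- the multiplier is realised by the Hodge operator
    have hop : IsMult A₀ A (w : ℂ) ((Φ₀, Φ) : Tup 0 n ℂ) := ⟨Subsingleton.elim _ _, hΦ⟩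
    obtain ⟨φ, hφ⟩ : ∃ φ : ℂ →ₗ[ℚ] ℚ, φ 1 = 1 := by
      obtain ⟨φ, hφ⟩ := LinearMap.exists_leftInverse_of_injective (LinearMap.toSpanSingleton ℚ ℂ (1 : ℂ)) (by
        rw [LinearMap.ker_eq_bot]
        intro a b hab
        have h1 : a • (1 : ℂ) = b • (1 : ℂ) := hab
        rw [Algebra.smul_def, Algebra.smul_def, mul_one, mul_one] at h1
        exact (algebraMap ℚ ℂ).injective h1)
      refine ⟨φ, ?_⟩
      have h1 := congrArg (fun f : ℚ →ₗ[ℚ] ℚ => f 1) hφ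
      have h2 : φ ((1 : ℚ) • (1 : ℂ)) = 1 := h1
      rwa [one_smul] at h2
    have hZ := phT_mem h𝔤.hodge φ
    have hZm := mult_ph φ hop
    have hφw : φ (w : ℂ) = w := by
      have h1 : (w : ℂ) = (w : ℚ) • (1 : ℂ) := by
        rw [Algebra.smul_def, mul_one, map_natCast]
      rw [h1, map_smul, hφ, smul_eq_mul, mul_one]
    rw [hφw] at hZm
    have hw' : (w : ℚ) ≠ 0 := by exact_mod_cast hw.ne'
    have h1 := mult_add hc' (mult_smul ((c - c') / w) hZm)
    rw [div_mul_cancel₀ _ hw', add_sub_cancel] at h1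
    set Y' := Y + ((c - c') / w) • phT φ ((Φ₀, Φ) : Tup 0 n ℂ) with hY'
    have hY'm : Y' ∈ 𝔤 := 𝔤.add_mem hY (𝔤.smul_mem _ hZ)
    rw [split (X := X) (Y := Y') (Subsingleton.elim _ _)]
    exact 𝔤.add_mem hY'm (hsp _ (sub_sp hc h1))
  · have h1 := mult_scalar h0 hA₀ hYX' hc' hc
    subst h1
    rw [split hYX']
    exact 𝔤.add_mem hY (hsp _ (sub_sp hc hc'))

end

/-- For all Hodge structures `H_i` with forms `A_i` on the fibres over `x_i = b_i^(-t_i)` (with the part of type `(w, 0)` given by the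
period vector) and all nondegenerate forms `A_0`: the statements 1., 2., 3. for all Lie algebras `𝔤` and `L`. -/
def Good {n₀ k e : ℕ} {G : Fin k → GSystem} {n : Fin k → ℕ} (Φ₀ : Matrix (Fin n₀) (Fin n₀) ℂ)
    (F : ∀ i, Periods (G i) (n i) e) (w : ℕ) (b t : Fin k → ℕ) : Prop :=
  ∀ (A : ∀ i, Matrix (Fin (n i)) (Fin (n i)) ℚ) (H : ∀ i, ℕ → Submodule ℂ (Fin (n i) → ℂ)), IsFibre F (fun _ => w) b t A H →
    ∀ Φ : ∀ i, Matrix (Fin (n i)) (Fin (n i)) ℂ, (∀ i, IsHodgeOperator w (H i) (Φ i)) →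
    ∀ A₀ : Matrix (Fin n₀) (Fin n₀) ℚ, A₀.det ≠ 0 → ∀ 𝔤 : Submodule ℚ (Tup n₀ n ℚ), IsMotivic Φ₀ Φ A₀ A 𝔤 →
      IsMaximal A₀ A 𝔤 ∧ SerreReduces Φ₀ Φ 𝔤 ∧
      ∀ (E : Type) [Field E] [Algebra ℚ E] (L : Submodule E (Tup n₀ n E)), L ≤ extend E 𝔤 → SatoTateReduces A₀ A 𝔤 L

/-- **The theorem.** -/
theorem result (n₀ k e : ℕ) (hk : 1 ≤ k) (G : Fin k → GSystem) (n : Fin k → ℕ) (b : Fin k → ℕ) (hb : ∀ i, 2 ≤ b i) :
    ∃ C : ℝ, 0 ≤ C ∧ ∀ Φ₀ : Matrix (Fin n₀) (Fin n₀) ℂ, IsSplitOperator Φ₀ →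
      ∀ F : ∀ i, Periods (G i) (n i) e, ∀ w : ℕ, ∀ N : ℕ, 2 ≤ N →
      (({t : Fin k → ℕ | (∀ i, 1 ≤ t i ∧ t i ≤ N) ∧ ¬ Good Φ₀ F w b t}.ncard : ℕ) : ℝ) * N ≤
        C * (N : ℝ) ^ k * Real.log N := by
  classical
  obtain ⟨C, hC, hcount⟩ := count n₀ e G n b hb
  refine ⟨C, hC, ?_⟩
  intro Φ₀ hΦ₀ F w N hN
  refine hcount Φ₀ hΦ₀ F (fun _ => w) N hN _ fun t ht => ⟨ht.1, fun hgood => ht.2 ?_⟩
  intro A H hF Φ hop A₀ hA₀ 𝔤 h𝔤
  have hw : 0 < w := (hF ⟨0, hk⟩).1
  have hH : ∀ i, IsHodge w (A i) (H i) := fun i => (hF i).2.1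
  have hR := hgood A H hF
  have hΦ : ∀ i, Φ i * (A i).map (algebraMap ℚ ℂ) + (A i).map (algebraMap ℚ ℂ) * (Φ i).transpose =
      (w : ℂ) • (A i).map (algebraMap ℚ ℂ) := by
    intro i
    have h1 := (hH i).hs.op (hop i)
    have h2 : (A i).map (algebraMap ℚ ℂ) = Pool.Agent.X120.HG.cq (A i) := by
      ext a b
      exact eq_ratCast (algebraMap ℚ ℂ) _
    rw [h2]
    exact h1
  have hspmt : ∀ X : ∀ i, Matrix (Fin (n i)) (Fin (n i)) ℚ, IsSpTuple A X → ((0, X) : Tup n₀ n ℚ) ∈ mumfordTate Φ₀ Φ := by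
    intro X hX
    refine sp_in hH hR hop fun i => ?_
    have h1 := hX i
    rw [map_id] at h1
    exact h1
  have hmtle : mumfordTate Φ₀ Φ ≤ 𝔤 := sInf_le ⟨h𝔤.lie, h𝔤.hodge⟩
  have hsp : ∀ X : ∀ i, Matrix (Fin (n i)) (Fin (n i)) ℚ, IsSpTuple A X → ((0, X) : Tup n₀ n ℚ) ∈ 𝔤 := fun X hX => hmtle (hspmt X hX)
  have hmtm : IsMotivic Φ₀ Φ A₀ A (mumfordTate Φ₀ Φ) := ⟨lie_sInf Φ₀ Φ, mem_mt Φ₀ Φ, fun X hX => h𝔤.mult X (hmtle hX)⟩
  have hmem := fun (X : Tup n₀ n ℚ) (hX : X.1 ∈ image 𝔤) (c : ℚ) (hc : IsMult A₀ A c X) => mem_of h𝔤 hA₀ hw hΦ hsp hX hc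
  refine ⟨⟨fun X => ⟨fun hX => ⟨⟨X, hX, rfl⟩, h𝔤.mult X hX⟩, fun hX => ?_⟩, fun X => ⟨fun hX => ?_, fun hX => ?_⟩⟩, ⟨fun h => ?_, fun h => ?_⟩, ?_⟩
  · obtain ⟨c, hc⟩ := hX.2
    exact hmem X hX.1 c hc
  · refine ⟨⟨⟨X, hX.1, rfl⟩, ?_⟩, fun i => ?_⟩
    · rw [hX.2.1, zero_smul]
    · rw [hX.2.2 i, zero_smul]
  · have h1 : IsMult A₀ A 0 X := by
      refine ⟨?_, fun i => ?_⟩
      · rw [hX.1.2, zero_smul]
      · rw [hX.2 i, zero_smul]
    exact ⟨hmem X hX.1.1 0 h1, h1⟩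
  · -- Serre's conjecture
    rw [h]
    refine le_antisymm ?_ (mt_proj Φ₀ Φ)
    rintro _ ⟨X, hX, rfl⟩
    let W : Submodule ℚ (Tup n₀ n ℚ) := (mumfordTate₀ Φ₀).comap (LinearMap.fst ℚ _ _)
    have hW : mumfordTate Φ₀ Φ ≤ W := by
      refine sInf_le ⟨fun X hX Y hY => lie_sInf₀ Φ₀ _ hX _ hY, mem_of_phT fun φ => phM_mem (mem_mt₀ Φ₀) φ⟩
    exact hW hX
  · refine le_antisymm (fun X hX => ?_) hmtle
    obtain ⟨c, hc⟩ := h𝔤.mult X hX
    refine mem_of hmtm hA₀ hw hΦ hspmt ?_ hc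
    have h1 : X.1 ∈ image 𝔤 := ⟨X, hX, rfl⟩
    rw [h] at h1
    exact mt_proj Φ₀ Φ h1
  · intro E _ _ L hL
    have hspE : ∀ X : ∀ i, Matrix (Fin (n i)) (Fin (n i)) E, IsSpTuple A X → ((0, X) : Tup n₀ n E) ∈ extend E 𝔤 := by
      intro X hX
      refine mem_of_phT fun φ => ?_
      have h1 : phT φ ((0, X) : Tup n₀ n E) = ((0, fun i => (X i).map φ) : Tup n₀ n ℚ) := by
        refine Prod.ext ?_ rfl
        ext a b
        exact map_zero φ
      rw [h1]
      refine hsp _ fun i => ?_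
      have h2 := ph_one (c := (0 : E)) φ (by rw [hX i, zero_smul])
      rw [map_id, h2, map_zero, zero_smul]
    have hmult : ∀ X ∈ extend E 𝔤, ∃ c : E, IsMult A₀ A c X := by
      intro X hX
      unfold extend at hX
      induction hX using Submodule.span_induction with
      | mem x hx =>
        obtain ⟨Y, hY, rfl⟩ := hx
        obtain ⟨c, hc⟩ := h𝔤.mult Y hY
        exact ⟨_, mult_cast hc⟩
      | zero => exact ⟨0, mult_zero⟩
      | add x y _ _ hx hy =>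
        obtain ⟨c, hc⟩ := hx
        obtain ⟨c', hc'⟩ := hy
        exact ⟨_, mult_add hc hc'⟩
      | smul q x _ hx =>
        obtain ⟨c, hc⟩ := hx
        exact ⟨_, mult_smul q hc⟩
    have hfst : ∀ X ∈ extend E 𝔤, X.1 ∈ extend₀ E (image 𝔤) := by
      intro X hX
      refine mem_of_phM fun φ => ⟨phT φ X, phT_mem hX φ, rfl⟩
    constructor
    · intro h
      refine ⟨?_, fun X hX => ?_⟩
      · ext Y
        constructor
        · rintro ⟨⟨X, hX, rfl⟩, h2⟩
          exact ⟨hfst X (hL hX), h2⟩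
        · rintro ⟨h1, h2⟩
          have h3 : ((Y, 0) : Tup n₀ n E) ∈ kernel A₀ A (extend E 𝔤) := by
            have h4 : IsMult A₀ A (0 : E) ((Y, 0) : Tup n₀ n E) := by
              refine ⟨by rw [h2, zero_smul], fun i => ?_⟩
              show (0 : Matrix (Fin (n i)) (Fin (n i)) E) * _ + _ * (0 : Matrix (Fin (n i)) (Fin (n i)) E).transpose = _
              rw [Matrix.zero_mul, Matrix.transpose_zero, Matrix.mul_zero, zero_smul, add_zero]
            refine ⟨mem_of_phT fun φ => hmem _ (phM_mem h1 φ) _ (mult_ph φ h4), h4⟩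
          rw [← h] at h3
          exact ⟨⟨_, h3.1, rfl⟩, h2⟩
      · have h3 : ((0, X) : Tup n₀ n E) ∈ kernel A₀ A (extend E 𝔤) := by
          refine ⟨hspE X hX, ?_, fun i => ?_⟩
          · rw [Matrix.zero_mul, Matrix.transpose_zero, Matrix.mul_zero, zero_smul, add_zero]
          · rw [hX i, zero_smul]
        rw [← h] at h3
        exact h3.1
    · rintro ⟨h1, h2⟩
      refine Set.Subset.antisymm (fun X hX => ⟨hL hX.1, hX.2⟩) fun X hX => ⟨?_, hX.2⟩
      rcases Nat.eq_zero_or_pos n₀ with h0 | h0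
      · subst h0
        have h3 : X = ((0, X.2) : Tup 0 n E) := Prod.ext (Subsingleton.elim _ _) rfl
        rw [h3]
        refine h2 _ fun i => ?_
        rw [hX.2.2 i, zero_smul]
      · have h3 : X.1 ∈ kernel₀ A₀ (extend₀ E (image 𝔤)) := ⟨hfst X hX.1, by rw [hX.2.1, zero_smul]⟩
        rw [← h1] at h3
        obtain ⟨⟨Y, hY, hYX⟩, -⟩ := h3
        have hYX' : Y.1 = X.1 := hYX
        obtain ⟨c, hc⟩ := hmult Y (hL hY)
        have h4 := mult_scalar h0 hA₀ hYX' hc hX.2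
        subst h4
        rw [split hYX']
        exact L.add_mem hY (h2 _ (sub_sp hX.2 hc))

end Pool.Agent.Results.MP_d61fbb_ag.MotivicGroupsAtPowers
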